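import Pool.Agent.P8H33.AM.Pack

/-!
# MP_d97def_al, Q1 for X = e: a group with property (e) need not be amenable

There is a finitely generated torsion group `G` which is not amenable and in which every partition
into `n` cells has a cell whose packing index is at most a number depending only on `n`. Moreover
`G` has non-amenable normal subgroups `H` of finite index which satisfy the conditions in (b) and
in (c) for all partitions into at most `N` cells, for any given `N`.

`G` is generated by units `1 + x_i` of a Golod-Shafarevich algebra over a field with `p` elements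
(`Helper824`), any two of which generate a group of class at most two and exponent `p`; the
Laplacian of the generators on `l^2(G)` has a spectral gap (`Helper784MS`), so `G` is not amenable,
and for every `k` there is a subgroup of finite index in which all `k`-generated subgroups are
finite. Since translates by elements of one coset of such a subgroup can be compared inside a
finite subgroup, the cells of a partition cannot all have large packing indices.
-/

set_option autoImplicit false

namespace Pool.Agent.Results.MP_d97def_al.PropertyENonamenable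

open Pool.Agent.H883B

/-- Property (e): every partition of `G` into `n` cells (given by a map to `n` colours) has a cell
with finite packing index. -/
def PropertyE (G : Type) [Group G] : Prop :=
  ∀ n : ℕ, 1 ≤ n → ∀ c : G → Fin n, ∃ i : Fin n, pack {x | c x = i} ≠ ⊤

/-- `cov(A A⁻¹) ≤ n`: there is a set `F` with at most `n` elements such that `G = F A A⁻¹`. -/
def CovLe {G : Type} [Group G] (A : Set G) (n : ℕ) : Prop :=
  ∃ F : Finset G, F.card ≤ n ∧ ∀ g : G, ∃ f ∈ F, ∃ a ∈ A, ∃ b ∈ A, g = f * (a * b⁻¹)

/-- **Theorem.** There is a group `G` which is not amenable and has property (e). It is finitely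
generated, all its elements have finite order, and for every `n` there is a bound `M` such that
every partition of `G` into `n` cells has a cell with packing index at most `M`. For every `N` it
has a non-amenable normal subgroup `H` of finite index such that, for all `1 ≤ n ≤ N`, every
partition of `H` into `n` cells has a cell `A` with `pack(A) ≤ n` and `cov(A A⁻¹) ≤ n`. -/
theorem result : ∃ (G : Type) (_ : Group G), ¬ IsAmenable G ∧ PropertyE G ∧
    Group.FG G ∧ (∀ g : G, IsOfFinOrder g) ∧
    (∀ n : ℕ, 1 ≤ n → ∃ M : ℕ, ∀ c : G → Fin n, ∃ i : Fin n, pack {x | c x = i} ≤ M) ∧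
    ∀ N : ℕ, ∃ H : Subgroup G, H.Normal ∧ H.FiniteIndex ∧ ¬ IsAmenable H ∧
      ∀ n : ℕ, 1 ≤ n → n ≤ N → ∀ c : H → Fin n, ∃ i : Fin n,
        pack {x | c x = i} ≤ n ∧ CovLe {x | c x = i} n := by
  obtain ⟨G, hG, h1, h2, h3, h4, h5⟩ := Pool.Agent.P8H33.AM.main
  refine ⟨G, hG, h1, ?_, h2, fun g => h3 g, h4, ?_⟩
  · intro n hn c
    obtain ⟨M, hM⟩ := h4 n hn
    obtain ⟨i, hi⟩ := hM c
    refine ⟨i, ?_⟩
    intro htop
    rw [htop, top_le_iff] at hi
    exact ENat.natCast_ne_top M hi
  · intro N
    obtain ⟨H, hH1, hH2, hH3, hH4⟩ := h5 N
    refine ⟨H, hH1, hH2, hH3, ?_⟩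
    intro n hn hnN c
    obtain ⟨i, hi, F, hF, hF2⟩ := hH4 n hn hnN c
    refine ⟨i, hi, F, hF, ?_⟩
    intro g
    obtain ⟨f, hf, a, b, ha, hb, h⟩ := hF2 g
    exact ⟨f, hf, a, ha, b, hb, h⟩

end Pool.Agent.Results.MP_d97def_al.PropertyENonamenable
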